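import Mathlib

/-!
The group schemes with given heights.
-/

set_option autoImplicit false

open Matrix

namespace Pool.Agent.J6H83.Pk

variable {k : Type*} [Field k] {p : ℕ} [hp : Fact p.Prime] [CharP k p] {n : ℕ}
  {R : Type*} [CommRing R] [Algebra k R] {h : Fin n → Fin n → ℕ} {lv : Fin n → ℕ}

include hp in
lemma sum_pow_R (k : Type*) [Field k] [CharP k p] [Algebra k R] {ι : Type*} (s : Finset ι)
    (f : ι → R) (r : ℕ) : (∑ i ∈ s, f i) ^ (p ^ r) = ∑ i ∈ s, f i ^ (p ^ r) := by
  rcases subsingleton_or_nontrivial R with h0 | h0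
  · exact Subsingleton.elim _ _
  · have : CharP R p := charP_of_injective_algebraMap (algebraMap k R).injective p
    exact sum_pow_char_pow p _ _ _

include hp in
lemma det_pow_R (k : Type*) [Field k] [CharP k p] [Algebra k R]
    (M : Matrix (Fin n) (Fin n) R) (r : ℕ)
    (hM : ∀ i l, M i l ^ (p ^ r) = if i = l then 1 else 0) : M.det ^ (p ^ r) = 1 := by
  rcases subsingleton_or_nontrivial R with h0 | h0
  · exact Subsingleton.elim _ _
  · have : CharP R p := charP_of_injective_algebraMap (algebraMap k R).injective p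
    rw [← iterateFrobenius_def, RingHom.map_det]
    have h1 : (iterateFrobenius R p r).mapMatrix M = 1 := by
      ext1 i l
      rw [RingHom.mapMatrix_apply, Matrix.map_apply, iterateFrobenius_def, hM,
        Matrix.one_apply]
    rw [h1, Matrix.det_one]

include hp in
lemma pow_of_le {a : R} {c : Prop} [Decidable c] {s t : ℕ} (hst : s ≤ t)
    (ha : a ^ (p ^ s) = if c then 1 else 0) : a ^ (p ^ t) = if c then 1 else 0 := by
  obtain ⟨d, rfl⟩ := Nat.exists_eq_add_of_le hst
  rw [pow_add, pow_mul, ha]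
  have h4 : p ^ d ≠ 0 := (pow_pos hp.out.pos d).ne'
  split_ifs
  · exact one_pow _
  · exact zero_pow h4

include hp in
lemma mul_points (k : Type*) [Field k] [CharP k p] [Algebra k R]
    (h0 : ∀ i l, lv i < lv l → h i l = 0)
    (h1 : ∀ i b l, lv l ≤ lv b → lv b ≤ lv i → h i b ≤ h i l)
    {a b : Matrix (Fin n) (Fin n) R}
    (ha : ∀ i l, a i l ^ (p ^ h i l) = if i = l then 1 else 0)
    (hb : ∀ i l, b i l ^ (p ^ h i l) = if i = l then 1 else 0) (i l : Fin n) :
    (a * b) i l ^ (p ^ h i l) = if i = l then 1 else 0 := by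
  have h2 : ∀ {c : Matrix (Fin n) (Fin n) R},
      (∀ i l, c i l ^ (p ^ h i l) = if i = l then 1 else 0) →
      ∀ {i l}, lv i < lv l → c i l = 0 := by
    intro c hc i l hil
    have h3 := hc i l
    rw [h0 i l hil, pow_zero, pow_one, if_neg] at h3
    · exact h3
    · rintro rfl
      exact lt_irrefl _ hil
  have hpos : p ^ h i l ≠ 0 := (pow_pos hp.out.pos _).ne'
  rw [Matrix.mul_apply, sum_pow_R k]
  have e1 : ∀ c, (a i c * b c l) ^ (p ^ h i l) =
      if i = c then b c l ^ (p ^ h i l) else 0 := by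
    intro c
    rw [mul_pow]
    by_cases hb1 : lv c < lv l
    · rw [h2 hb hb1, zero_pow hpos, mul_zero, ite_self]
    · by_cases hb2 : lv c ≤ lv i
      · rw [pow_of_le (h1 i c l (not_lt.1 hb1) hb2) (ha i c)]
        split_ifs
        · rw [one_mul]
        · rw [zero_mul]
      · rw [h2 ha (not_le.1 hb2), zero_pow hpos, zero_mul, if_neg]
        rintro rfl
        exact hb2 le_rfl
  rw [Finset.sum_congr rfl fun b _ => e1 b, Finset.sum_ite_eq, if_pos (Finset.mem_univ _),
    hb i l]

include hp in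
lemma inv_points (k : Type*) [Field k] [CharP k p] [Algebra k R]
    (h0 : ∀ i l, lv i < lv l → h i l = 0)
    (h1 : ∀ i b l, lv l ≤ lv b → lv b ≤ lv i → h i b ≤ h i l)
    {a : Matrix (Fin n) (Fin n) R}
    (ha : ∀ i l, a i l ^ (p ^ h i l) = if i = l then 1 else 0) :
    IsUnit a.det ∧ ∀ i l, a⁻¹ i l ^ (p ^ h i l) = if i = l then 1 else 0 := by
  classical
  have h2 : ∀ {i l}, lv i < lv l → a i l = 0 := by
    intro i l hil
    have h3 := ha i l
    rw [h0 i l hil, pow_zero, pow_one, if_neg] at h3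
    · exact h3
    · rintro rfl
      exact lt_irrefl _ hil
  obtain ⟨r, hr⟩ : ∃ r, ∀ i l, h i l ≤ r := by
    refine ⟨Finset.univ.sup fun i => Finset.univ.sup fun l => h i l, fun i l => ?_⟩
    exact (Finset.le_sup (f := fun l => h i l) (Finset.mem_univ l)).trans
      (Finset.le_sup (f := fun i => Finset.univ.sup fun l => h i l) (Finset.mem_univ i))
  have hdet : IsUnit a.det := by
    have h3 : a.det ^ (p ^ r) = 1 := det_pow_R k a r fun i l => pow_of_le (hr i l) (ha i l)
    exact IsUnit.of_pow_eq_one h3 (pow_pos hp.out.pos r).ne'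
  refine ⟨hdet, fun i l => ?_⟩
  have hbt : a.BlockTriangular (OrderDual.toDual ∘ lv) := by
    intro i l hil
    exact h2 hil
  have : Invertible a := Matrix.invertibleOfIsUnitDet _ hdet
  have hinv := Matrix.blockTriangular_inv_of_blockTriangular hbt
  have hz : ∀ {i l}, lv i < lv l → a⁻¹ i l = 0 := fun {i l} hil => hinv hil
  have hpos : p ^ h i l ≠ 0 := (pow_pos hp.out.pos _).ne'
  have e0 := congrFun (congrFun (Matrix.mul_nonsing_inv a hdet) i) l
  have e2 := congrArg (· ^ (p ^ h i l)) e0
  simp only [Matrix.mul_apply, sum_pow_R k] at e2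
  have e1 : ∀ c, (a i c * a⁻¹ c l) ^ (p ^ h i l) =
      if i = c then a⁻¹ c l ^ (p ^ h i l) else 0 := by
    intro c
    rw [mul_pow]
    by_cases hb1 : lv c < lv l
    · rw [hz hb1, zero_pow hpos, mul_zero, ite_self]
    · by_cases hb2 : lv c ≤ lv i
      · rw [pow_of_le (h1 i c l (not_lt.1 hb1) hb2) (ha i c)]
        split_ifs
        · rw [one_mul]
        · rw [zero_mul]
      · rw [h2 (not_le.1 hb2), zero_pow hpos, zero_mul, if_neg]
        rintro rfl
        exact hb2 le_rfl
  rw [Finset.sum_congr rfl fun b _ => e1 b, Finset.sum_ite_eq, if_pos (Finset.mem_univ _),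
    Matrix.one_apply] at e2
  rw [e2]
  split_ifs
  · exact one_pow _
  · exact zero_pow hpos

end Pool.Agent.J6H83.Pk
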