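import Pool.Agent.J6H83.Pk.Inv

/-!
The chart rings are contained in localizations of the ring of invariants.
-/

set_option autoImplicit false

open MvPolynomial Matrix Cardinal

universe u

namespace Pool.Agent.J6H83.Pk

open Pool.Agent.Y212.Fk (FF XK XK_apply gen coact det_mem)

variable {k : Type u} [Field k] {p : ℕ} {n m : ℕ} {h : Fin n → Fin n → ℕ}

section sub

variable {K : Type*} [Field K] [Algebra k K] (S : Subalgebra k K)

lemma adjugate_mem (M : Matrix (Fin n) (Fin n) K) (hM : ∀ i j, M i j ∈ S) (i j : Fin n) :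
    M.adjugate i j ∈ S := by
  rw [Matrix.adjugate_apply]
  apply det_mem
  intro a b
  rw [Matrix.updateRow_apply]
  split_ifs with hc
  · rw [Pi.single_apply]
    split_ifs
    · exact S.one_mem
    · exact S.zero_mem
  · exact hM a b

lemma inv_mem_of_det (M : Matrix (Fin n) (Fin n) K) (hM : ∀ i j, M i j ∈ S)
    (hdet : M.det = 1) (i j : Fin n) : M⁻¹ i j ∈ S := by
  rw [Matrix.inv_def, hdet, Ring.inverse_one, one_smul]
  exact adjugate_mem S M hM i j

lemma det_tr_mem (P : Fin n → Prop) [DecidablePred P] (M : Matrix (Fin n) (Fin n) K)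
    (hM : ∀ i j, M i j ∈ S) : (tr P M).det ∈ S := by
  apply det_mem
  intro i j
  rw [tr_apply]
  split_ifs
  · exact hM i j
  · exact S.one_mem
  · exact S.zero_mem

end sub

section quot

/-- The coordinate ring of the product of the group scheme and the matrix space. -/
def QQ (k : Type u) [Field k] (p : ℕ) {n : ℕ} (m : ℕ) (h : Fin n → Fin n → ℕ) : Type u :=
  MvPolynomial (Fin n × Fin n) (MvPolynomial (Fin n × Fin m) k) ⧸ frI k p m h

noncomputable instance : CommRing (QQ k p m h) :=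
  inferInstanceAs (CommRing (MvPolynomial (Fin n × Fin n) (MvPolynomial (Fin n × Fin m) k) ⧸
    frI k p m h))

noncomputable instance : Algebra k (QQ k p m h) :=
  inferInstanceAs (Algebra k (MvPolynomial (Fin n × Fin n) (MvPolynomial (Fin n × Fin m) k) ⧸
    frI k p m h))

/-- The projection onto the quotient. -/
noncomputable def mkQ (k : Type u) [Field k] (p : ℕ) {n : ℕ} (m : ℕ) (h : Fin n → Fin n → ℕ) :
    MvPolynomial (Fin n × Fin n) (MvPolynomial (Fin n × Fin m) k) →+* QQ k p m h :=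
  Ideal.Quotient.mk (frI k p m h)

lemma mkQ_eq {a b : MvPolynomial (Fin n × Fin n) (MvPolynomial (Fin n × Fin m) k)} :
    mkQ k p m h a = mkQ k p m h b ↔ a - b ∈ frI k p m h := Ideal.Quotient.eq

/-- The action. -/
noncomputable def al (k : Type u) [Field k] (p : ℕ) {n : ℕ} (m : ℕ) (h : Fin n → Fin n → ℕ) :
    MvPolynomial (Fin n × Fin m) k →+* QQ k p m h :=
  (mkQ k p m h).comp (coact k n m).toRingHom

/-- The projection. -/
noncomputable def be (k : Type u) [Field k] (p : ℕ) {n : ℕ} (m : ℕ) (h : Fin n → Fin n → ℕ) :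
    MvPolynomial (Fin n × Fin m) k →+* QQ k p m h :=
  (mkQ k p m h).comp C

/-- The universal point of the group scheme. -/
noncomputable def gQ (k : Type u) [Field k] (p : ℕ) {n : ℕ} (m : ℕ) (h : Fin n → Fin n → ℕ) :
    Matrix (Fin n) (Fin n) (QQ k p m h) :=
  Matrix.of fun i l => mkQ k p m h (X (i, l))

lemma mem_Inv' {f : MvPolynomial (Fin n × Fin m) k} :
    f ∈ Inv k p m h ↔ al k p m h f = be k p m h f := by
  rw [mem_Inv]
  exact mkQ_eq.symm

lemma al_X (i : Fin n) (j : Fin m) : al k p m h (X (i, j)) =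
    ∑ l, gQ k p m h i l * be k p m h (X (l, j)) := by
  change mkQ k p m h (coact k n m (X (i, j))) = _
  rw [coact, aeval_X, map_sum]
  apply Finset.sum_congr rfl
  intro l _
  rw [map_mul]
  rfl

lemma gQ_pow {i l : Fin n} {s : ℕ} (hs : h i l ≤ s) (hp : 0 < p) :
    gQ k p m h i l ^ (p ^ s) = if i = l then 1 else 0 := by
  have h1 : gQ k p m h i l ^ (p ^ h i l) = if i = l then 1 else 0 := by
    have h2 : (X (i, l) ^ (p ^ h i l) - if i = l then 1 else 0 :
        MvPolynomial (Fin n × Fin n) (MvPolynomial (Fin n × Fin m) k)) ∈ frI k p m h :=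
      Ideal.subset_span ⟨(i, l), rfl⟩
    have h3 := mkQ_eq.2 h2
    rw [map_pow] at h3
    change (mkQ k p m h (X (i, l))) ^ (p ^ h i l) = _
    rw [h3]
    split_ifs <;> simp
  obtain ⟨d, rfl⟩ := Nat.exists_eq_add_of_le hs
  rw [pow_add, pow_mul, h1]
  have h4 : p ^ d ≠ 0 := (pow_pos hp d).ne'
  split_ifs
  · exact one_pow _
  · exact zero_pow h4

lemma charQ [CharP k p] [Nontrivial (QQ k p m h)] : CharP (QQ k p m h) p :=
  charP_of_injective_algebraMap (algebraMap k (QQ k p m h)).injective p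

lemma sum_pow_Q [hp : Fact p.Prime] [CharP k p] {ι : Type*} (s : Finset ι)
    (f : ι → QQ k p m h) (r : ℕ) : (∑ i ∈ s, f i) ^ (p ^ r) = ∑ i ∈ s, f i ^ (p ^ r) := by
  rcases subsingleton_or_nontrivial (QQ k p m h) with h0 | h0
  · exact Subsingleton.elim _ _
  · have := charQ (k := k) (p := p) (m := m) (h := h)
    exact sum_pow_char_pow p _ _ _

lemma det_pow_Q [hp : Fact p.Prime] [CharP k p] (M : Matrix (Fin n) (Fin n) (QQ k p m h))
    (r : ℕ) (hM : ∀ i l, M i l ^ (p ^ r) = if i = l then 1 else 0) : M.det ^ (p ^ r) = 1 := by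
  rcases subsingleton_or_nontrivial (QQ k p m h) with h0 | h0
  · exact Subsingleton.elim _ _
  · have := charQ (k := k) (p := p) (m := m) (h := h)
    rw [← iterateFrobenius_def, RingHom.map_det]
    have h1 : (iterateFrobenius (QQ k p m h) p r).mapMatrix M = 1 := by
      ext1 i l
      rw [RingHom.mapMatrix_apply, Matrix.map_apply, iterateFrobenius_def, hM,
        Matrix.one_apply]
    rw [h1, Matrix.det_one]

variable {lv : Fin n → ℕ} (h0 : ∀ i l, lv i < lv l → h i l = 0)

include h0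

lemma gQ_zero {i l : Fin n} (hil : lv i < lv l) (hp : 0 < p) : gQ k p m h i l = 0 := by
  have h1 := gQ_pow (k := k) (m := m) (h := h) (i := i) (l := l) (s := 0)
    (le_of_eq (h0 i l hil)) hp
  rw [pow_zero, pow_one, if_neg] at h1
  · exact h1
  · rintro rfl
    exact lt_irrefl _ hil

lemma al_mnr (hp : 0 < p) (b : ℕ) (f : Fin n → Fin m) :
    al k p m h (mnr k (fun i => lv i ≤ b) f) =
      (tr (fun i => lv i ≤ b) (gQ k p m h)).det *
        be k p m h (mnr k (fun i => lv i ≤ b) f) := by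
  rw [mnr, RingHom.map_det, RingHom.map_det, RingHom.mapMatrix_apply, RingHom.mapMatrix_apply,
    map_tr, map_tr]
  have e1 : ((gen k n m).submatrix id f).map (al k p m h) =
      gQ k p m h * ((gen k n m).submatrix id f).map (be k p m h) := by
    ext1 i l
    rw [Matrix.mul_apply, Matrix.map_apply]
    exact al_X i (f l)
  rw [e1, tr_mul, Matrix.det_mul]
  intro i c hi hc
  exact gQ_zero h0 (lt_of_le_of_lt hi (not_le.1 hc)) hp

variable [hp : Fact p.Prime] [CharP k p] {r : ℕ} (hr : ∀ i l, h i l ≤ r)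

include hr

omit h0 in
lemma det_tr_pow (P : Fin n → Prop) [DecidablePred P] :
    (tr P (gQ k p m h)).det ^ (p ^ r) = 1 := by
  apply det_pow_Q
  intro i l
  rw [tr_apply]
  have h1 : p ^ r ≠ 0 := (pow_pos hp.out.pos _).ne'
  split_ifs with h2 h3 h3
  · rw [gQ_pow (hr i l) hp.out.pos, if_pos h3]
  · rw [gQ_pow (hr i l) hp.out.pos, if_neg h3]
  · exact one_pow _
  · exact zero_pow h1

lemma mnr_mem (b : ℕ) (e f : Fin n → Fin m) :
    mnr k (fun i => lv i ≤ b) e ^ (p ^ r - 1) * mnr k (fun i => lv i ≤ b) f ∈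
      Inv k p m h := by
  rw [mem_Inv', map_mul, map_pow, map_mul, map_pow, al_mnr h0 hp.out.pos,
    al_mnr h0 hp.out.pos, mul_pow]
  have h1 : (tr (fun i => lv i ≤ b) (gQ k p m h)).det ^ (p ^ r - 1) *
      (tr (fun i => lv i ≤ b) (gQ k p m h)).det = 1 := by
    rw [← pow_succ, Nat.sub_add_cancel (pow_pos hp.out.pos r)]
    exact det_tr_pow hr _
  linear_combination (be k p m h (mnr k (fun i => lv i ≤ b) e) ^ (p ^ r - 1) *
    be k p m h (mnr k (fun i => lv i ≤ b) f)) * h1

lemma mnr_pow_mem (b : ℕ) (e : Fin n → Fin m) :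
    mnr k (fun i => lv i ≤ b) e ^ (p ^ r) ∈ Inv k p m h := by
  have h1 := mnr_mem (k := k) (p := p) h0 hr b e e
  rwa [← pow_succ, Nat.sub_add_cancel (pow_pos hp.out.pos r)] at h1

omit h0 in
lemma pow_mem (v : Fin n × Fin m) :
    (X v : MvPolynomial (Fin n × Fin m) k) ^ (p ^ r) ∈ Inv k p m h := by
  rw [mem_Inv', map_pow, map_pow]
  obtain ⟨i, j⟩ := v
  rw [al_X, sum_pow_Q]
  have h1 : ∀ l, (gQ k p m h i l * be k p m h (X (l, j))) ^ (p ^ r) =
      if i = l then be k p m h (X (l, j)) ^ (p ^ r) else 0 := by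
    intro l
    rw [mul_pow, gQ_pow (hr i l) hp.out.pos]
    split_ifs
    · rw [one_mul]
    · rw [zero_mul]
  rw [Finset.sum_congr rfl fun l _ => h1 l, Finset.sum_ite_eq, if_pos (Finset.mem_univ _)]

/-- The equation of the complement of a chart. -/
noncomputable def HP (k : Type u) [Field k] (q : ℕ) {n m : ℕ} (lv : Fin n → ℕ)
    (e : Fin n → Fin m) : MvPolynomial (Fin n × Fin m) k :=
  ∏ l, mnr k (fun i => lv i ≤ lv l) e ^ q

lemma HP_mem (e : Fin n → Fin m) : HP k (p ^ r) lv e ∈ Inv k p m h :=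
  Subalgebra.prod_mem _ fun l _ => mnr_pow_mem h0 hr (lv l) e

omit h0 hr [CharP k p] in
lemma HP_ne {e : Fin n → Fin m} (he : Function.Injective e) (q : ℕ) :
    algebraMap _ (FF k n m) (HP k q lv e) ≠ 0 := by
  rw [HP, map_prod, Finset.prod_ne_zero_iff]
  intro l _
  rw [map_pow]
  apply pow_ne_zero
  rw [← DP_XK]
  exact DP_ne _ e fun _ _ _ _ h => he h

/-- The localization of the ring of invariants. -/
noncomputable def BB (k : Type u) [Field k] (p : ℕ) {n m : ℕ} (h : Fin n → Fin n → ℕ)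
    (z : MvPolynomial (Fin n × Fin m) k) (hz : z ∈ Inv k p m h) :
    Subalgebra k (FF k n m) where
  carrier := {y | ∃ N, ∃ a ∈ Inv k p m h,
    algebraMap _ (FF k n m) z ^ N * y = algebraMap _ (FF k n m) a}
  mul_mem' := by
    rintro a b ⟨N, a', ha', ha⟩ ⟨M, b', hb', hb⟩
    refine ⟨N + M, a' * b', Subalgebra.mul_mem _ ha' hb', ?_⟩
    rw [map_mul, ← ha, ← hb]
    ring
  add_mem' := by
    rintro a b ⟨N, a', ha', ha⟩ ⟨M, b', hb', hb⟩
    refine ⟨N + M, z ^ M * a' + z ^ N * b', Subalgebra.add_mem _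
      (Subalgebra.mul_mem _ (Subalgebra.pow_mem _ hz _) ha')
      (Subalgebra.mul_mem _ (Subalgebra.pow_mem _ hz _) hb'), ?_⟩
    rw [map_add, map_mul, map_mul, ← ha, ← hb, map_pow, map_pow]
    ring
  algebraMap_mem' := by
    intro a
    refine ⟨0, algebraMap _ _ a, Subalgebra.algebraMap_mem _ _, ?_⟩
    rw [pow_zero, one_mul]
    exact IsScalarTower.algebraMap_apply k (MvPolynomial (Fin n × Fin m) k) (FF k n m) a

lemma WW_mem_BB {e : Fin n → Fin m} (he : Function.Injective e) (l : Fin n) (j : Fin m) :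
    WW lv (XK k n m) e l j ∈ BB k p h (HP k (p ^ r) lv e) (HP_mem h0 hr e) := by
  classical
  refine ⟨1, (∏ l' ∈ Finset.univ.erase l, mnr k (fun i => lv i ≤ lv l') e ^ (p ^ r)) *
    (mnr k (fun i => lv i ≤ lv l) e ^ (p ^ r - 1) *
      mnr k (fun i => lv i ≤ lv l) (Function.update e l j)), ?_, ?_⟩
  · exact Subalgebra.mul_mem _ (Subalgebra.prod_mem _ fun l' _ => mnr_pow_mem h0 hr _ e)
      (mnr_mem h0 hr _ _ _)
  · have h1 : HP k (p ^ r) lv e = (∏ l' ∈ Finset.univ.erase l,
        mnr k (fun i => lv i ≤ lv l') e ^ (p ^ r)) *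
          (mnr k (fun i => lv i ≤ lv l) e ^ (p ^ r - 1) * mnr k (fun i => lv i ≤ lv l) e) := by
      rw [← pow_succ, Nat.sub_add_cancel (pow_pos hp.out.pos r), HP, mul_comm,
        Finset.mul_prod_erase Finset.univ
          (fun l' => mnr k (fun i => lv i ≤ lv l') e ^ (p ^ r)) (Finset.mem_univ l)]
    have h2 : WW lv (XK k n m) e l j =
        algebraMap _ (FF k n m) (mnr k (fun i => lv i ≤ lv l) (Function.update e l j)) /
        algebraMap _ (FF k n m) (mnr k (fun i => lv i ≤ lv l) e) := by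
      rw [WW_eq_div (hDb he), Db, Db, DP_XK, DP_XK]
    have h3 : algebraMap _ (FF k n m) (mnr k (fun i => lv i ≤ lv l) e) ≠ 0 := by
      rw [← DP_XK]
      exact hDb he l
    rw [pow_one, h1, h2]
    simp only [map_mul]
    field_simp

lemma inv_mem_BB {e : Fin n → Fin m} (he : Function.Injective e) (c l : Fin n) :
    ((WW lv (XK k n m) e).submatrix id e)⁻¹ c l ∈
      BB k p h (HP k (p ^ r) lv e) (HP_mem h0 hr e) :=
  inv_mem_of_det _ _ (fun i j => WW_mem_BB h0 hr he i (e j)) (det_WW_sub (hDb he)) c l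

lemma TT_mem_BB (h1 : ∀ i b l, lv l ≤ lv b → lv b ≤ lv i → h i b ≤ h i l)
    {e : Fin n → Fin m} (he : Function.Injective e) {i l : Fin n} :
    TT lv (XK k n m) e i l ^ (p ^ h i l) ∈
      BB k p h (HP k (p ^ r) lv e) (HP_mem h0 hr e) := by
  classical
  choose N a ha hNa using fun c => inv_mem_BB (k := k) (p := p) h0 hr he c l
  let M : ℕ := Finset.univ.sup N
  have hM : ∀ c, ∃ a' ∈ Inv k p m h, algebraMap _ (FF k n m) (HP k (p ^ r) lv e) ^ M *
      ((WW lv (XK k n m) e).submatrix id e)⁻¹ c l = algebraMap _ (FF k n m) a' := by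
    intro c
    obtain ⟨d, hd⟩ := Nat.exists_eq_add_of_le (Finset.le_sup (f := N) (Finset.mem_univ c))
    refine ⟨HP k (p ^ r) lv e ^ d * a c,
      Subalgebra.mul_mem _ (Subalgebra.pow_mem _ (HP_mem h0 hr e) _) (ha c), ?_⟩
    rw [map_mul, ← hNa c, map_pow, ← mul_assoc, ← pow_add]
    congr 2
    change Finset.univ.sup N = _
    rw [hd, add_comm]
  choose a' ha' hNa' using hM
  let Y : Fin n → MvPolynomial (Fin n × Fin m) k := fun i => ∑ c, X (i, e c) * a' c
  have hY : ∀ i, algebraMap _ (FF k n m) (Y i) =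
      algebraMap _ (FF k n m) (HP k (p ^ r) lv e) ^ M * TT lv (XK k n m) e i l := by
    intro i
    change algebraMap _ (FF k n m) (∑ c, X (i, e c) * a' c) = _
    rw [map_sum, TT_eq (hDb he), Matrix.mul_apply, Finset.mul_sum]
    apply Finset.sum_congr rfl
    intro c _
    rw [map_mul, ← hNa' c, Matrix.submatrix_apply, XK_apply]
    simp only [id]
    ring
  have hY0 : ∀ b, lv b < lv l → Y b = 0 := by
    intro b hb
    have e1 := hY b
    rw [TT_zero (hDb he) hb, mul_zero] at e1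
    exact (FaithfulSMul.algebraMap_eq_zero_iff _ _).1 e1
  have hal : ∀ i, al k p m h (Y i) = ∑ b, gQ k p m h i b * be k p m h (Y b) := by
    intro i
    have e1 : ∀ c, al k p m h (X (i, e c) * a' c) =
        ∑ b, gQ k p m h i b * be k p m h (X (b, e c) * a' c) := by
      intro c
      rw [map_mul, mem_Inv'.1 (ha' c), al_X, Finset.sum_mul]
      apply Finset.sum_congr rfl
      intro b _
      rw [map_mul, mul_assoc]
    change al k p m h (∑ c, X (i, e c) * a' c) = _
    rw [map_sum, Finset.sum_congr rfl fun c _ => e1 c, Finset.sum_comm]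
    apply Finset.sum_congr rfl
    intro b _
    change _ = gQ k p m h i b * be k p m h (∑ c, X (b, e c) * a' c)
    rw [map_sum, Finset.mul_sum]
  refine ⟨M * p ^ h i l, Y i ^ (p ^ h i l), ?_, ?_⟩
  · rw [mem_Inv', map_pow, map_pow, hal, sum_pow_Q]
    have hpos : p ^ h i l ≠ 0 := (pow_pos hp.out.pos _).ne'
    have e1 : ∀ b, (gQ k p m h i b * be k p m h (Y b)) ^ (p ^ h i l) =
        if i = b then be k p m h (Y b) ^ (p ^ h i l) else 0 := by
      intro b
      rw [mul_pow]
      by_cases hb1 : lv b < lv l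
      · rw [hY0 b hb1, map_zero, zero_pow hpos, mul_zero, ite_self]
      · by_cases hb2 : lv b ≤ lv i
        · rw [gQ_pow (h1 i b l (not_lt.1 hb1) hb2) hp.out.pos]
          split_ifs
          · rw [one_mul]
          · rw [zero_mul]
        · rw [gQ_zero h0 (not_le.1 hb2) hp.out.pos, zero_pow hpos, zero_mul, if_neg]
          rintro rfl
          exact hb2 le_rfl
    rw [Finset.sum_congr rfl fun b _ => e1 b, Finset.sum_ite_eq, if_pos (Finset.mem_univ _)]
  · rw [map_pow, hY, mul_pow, pow_mul]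

/-- The chart rings are contained in the localizations. -/
theorem cc_mem_BB (h1 : ∀ i b l, lv l ≤ lv b → lv b ≤ lv i → h i b ≤ h i l)
    {e : Fin n → Fin m} (he : Function.Injective e) :
    Algebra.adjoin k (Set.range (cc k p h lv e)) ≤
      BB k p h (HP k (p ^ r) lv e) (HP_mem h0 hr e) := by
  rw [Algebra.adjoin_le_iff]
  rintro _ ⟨v, rfl⟩
  by_cases hv : Piv lv e v
  · obtain ⟨l, hl, hle⟩ := hv
    obtain ⟨i, j⟩ := v
    have hl : e l = j := hl
    subst hl
    rw [cc, ex_piv he hle, ww_piv he hle]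
    exact TT_mem_BB h0 hr h1 he
  · rw [cc, ex_not hv, ww_not hv, pow_one]
    exact WW_mem_BB h0 hr he _ _

end quot

end Pool.Agent.J6H83.Pk
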