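import Pool.Agent.J6H83.Pk.Gen

/-!
The invariants are contained in the chart rings.
-/

set_option autoImplicit false

open MvPolynomial Matrix Cardinal

universe u

namespace Pool.Agent.J6H83.Pk

open Pool.Agent.Y212.Fk (FF XK XK_apply gen coact shift dvd_of_shift)

section defs

variable (k : Type*) [Field k] (p : ℕ) {n : ℕ} (m : ℕ) (h : Fin n → Fin n → ℕ)

/-- The ideal of the group scheme with the heights `h`. -/
noncomputable def frI : Ideal (MvPolynomial (Fin n × Fin n) (MvPolynomial (Fin n × Fin m) k)) :=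
  Ideal.span (Set.range fun u => X u ^ (p ^ h u.1 u.2) - if u.1 = u.2 then 1 else 0)

/-- The algebra of invariants. -/
noncomputable def Inv : Subalgebra k (MvPolynomial (Fin n × Fin m) k) where
  carrier := {f | coact k n m f - C f ∈ frI k p m h}
  mul_mem' := by
    intro a b ha hb
    have h1 : coact k n m (a * b) - C (a * b) =
        coact k n m a * (coact k n m b - C b) + C b * (coact k n m a - C a) := by
      rw [map_mul, map_mul]; ring
    change coact k n m (a * b) - C (a * b) ∈ frI k p m h
    rw [h1]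
    exact Ideal.add_mem _ (Ideal.mul_mem_left _ _ hb) (Ideal.mul_mem_left _ _ ha)
  add_mem' := by
    intro a b ha hb
    have h1 : coact k n m (a + b) - C (a + b) =
        (coact k n m a - C a) + (coact k n m b - C b) := by
      rw [map_add, map_add]; ring
    change coact k n m (a + b) - C (a + b) ∈ frI k p m h
    rw [h1]
    exact Ideal.add_mem _ ha hb
  algebraMap_mem' := by
    intro a
    change coact k n m (algebraMap _ _ a) - C (algebraMap _ _ a) ∈ frI k p m h
    rw [AlgHom.commutes]
    have h1 : (algebraMap k (MvPolynomial (Fin n × Fin n) (MvPolynomial (Fin n × Fin m) k))) a =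
      C (algebraMap k (MvPolynomial (Fin n × Fin m) k) a) := rfl
    rw [h1, sub_self]
    exact Ideal.zero_mem _

end defs

variable {k : Type u} [Field k] {p : ℕ} {n m : ℕ} {h : Fin n → Fin n → ℕ}

lemma mem_Inv {f : MvPolynomial (Fin n × Fin m) k} :
    f ∈ Inv k p m h ↔ coact k n m f - C f ∈ frI k p m h := Iff.rfl

variable {lv : Fin n → ℕ} {e : Fin n → Fin m}

/-- The one parameter family of points of the group scheme. -/
noncomputable def ev (k : Type u) [Field k] {n m : ℕ} (lv : Fin n → ℕ) (e : Fin n → Fin m)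
    (i0 l0 : Fin n) :
    MvPolynomial (Fin n × Fin n) (MvPolynomial (Fin n × Fin m) k) →+*
      Polynomial (FF k n m) :=
  eval₂Hom ((Polynomial.C).comp (algebraMap _ (FF k n m))) fun u =>
    Polynomial.C (if u.1 = u.2 then 1 else 0) + Polynomial.X *
      Polynomial.C (if u.1 = i0 then SS lv (XK k n m) e l0 u.2 else 0)

/-- The point with the coordinates `ww + T` at `v` and `ww` elsewhere. -/
noncomputable def chi (k : Type u) [Field k] {n m : ℕ} (lv : Fin n → ℕ) (e : Fin n → Fin m)
    (v : Fin n × Fin m) :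
    MvPolynomial (Fin n × Fin m) k →ₐ[k] Polynomial (FF k n m) :=
  aeval fun u => Polynomial.C (ww k lv e u) + if u = v then Polynomial.X else 0

lemma chi_eq (v : Fin n × Fin m) (f : MvPolynomial (Fin n × Fin m) k) :
    chi k lv e v f = Polynomial.mapAlgHom (psi k lv e) (shift v f) := by
  have h : chi k lv e v = (Polynomial.mapAlgHom (psi k lv e)).comp (shift v) := by
    apply MvPolynomial.algHom_ext
    intro u
    rw [AlgHom.comp_apply, chi, aeval_X, shift, aeval_X, map_add]
    congr 1
    · simp [psi_X]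
    · split_ifs <;> simp
  rw [h]
  rfl

lemma chi_X (v u : Fin n × Fin m) : chi k lv e v (X u) =
    Polynomial.C (ww k lv e u) + if u = v then Polynomial.X else 0 := by
  rw [chi, aeval_X]

section fix2

variable (he : Function.Injective e) {i0 l0 : Fin n} (hl : lv l0 ≤ lv i0)

include he hl

lemma chi_Wp (l : Fin n) (j : Fin m) : chi k lv e (i0, e l0) (Wp k lv e l j) =
    Polynomial.C (WW lv (XK k n m) e l j) := by
  rw [Wp]
  by_cases hp : Piv lv e (l, j)
  · rw [if_pos hp]
    obtain ⟨l', hl', hle⟩ := hp
    have hl' : e l' = j := hl'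
    rw [← hl', WW_norm (hDb he) hle]
    by_cases h2 : l = l'
    · rw [if_pos h2, if_pos (congrArg e h2), map_one, map_one]
    · rw [if_neg h2, if_neg fun h => h2 (he h), map_zero, map_zero]
  · have hne : (l, j) ≠ (i0, e l0) := by
      intro heq
      apply hp
      rw [heq]
      exact ⟨l0, rfl, hl⟩
    rw [if_neg hp, chi_X, if_neg hne, add_zero, ww_not hp]

lemma chi_T (i l : Fin n) : chi k lv e (i0, e l0) (if lv l ≤ lv i then X (i, e l) else 0) =
    Polynomial.C (TT lv (XK k n m) e i l) +
      if i = i0 ∧ l = l0 then Polynomial.X else 0 := by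
  split_ifs with h1 h2 h2
  · rw [chi_X, ww_piv he h1, if_pos]
    rw [h2.1, h2.2]
  · rw [chi_X, ww_piv he h1, if_neg]
    intro h3
    exact h2 ⟨congrArg Prod.fst h3, he (congrArg Prod.snd h3)⟩
  · rw [h2.1, h2.2] at h1
    exact absurd hl h1
  · rw [map_zero, TT_zero (hDb he) (not_le.1 h1), map_zero, add_zero]

lemma ev_coact (f : MvPolynomial (Fin n × Fin m) k) :
    ev k lv e i0 l0 (coact k n m f) = chi k lv e (i0, e l0) (theta k lv e f) := by
  have h : (ev k lv e i0 l0).comp (coact k n m).toRingHom =
      ((chi k lv e (i0, e l0)).comp (theta k lv e)).toRingHom := by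
    apply MvPolynomial.ringHom_ext
    · intro a
      have h1 : coact k n m (C a) = C (C a) := by
        have := (coact k n m).commutes a
        exact this
      have h2 : theta k lv e (C a) = C a := (theta k lv e).commutes a
      change ev k lv e i0 l0 (coact k n m (C a)) =
        chi k lv e (i0, e l0) (theta k lv e (C a))
      rw [h1, h2]
      have h3 : chi k lv e (i0, e l0) (C a) = algebraMap k _ a :=
        (chi k lv e (i0, e l0)).commutes a
      rw [h3]
      simp only [ev, coe_eval₂Hom, eval₂_C, RingHom.comp_apply]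
      rfl
    · intro v
      change ev k lv e i0 l0 (coact k n m (X v)) =
        chi k lv e (i0, e l0) (theta k lv e (X v))
      have h1 : coact k n m (X v) = ∑ l, X (v.1, l) * C (X (l, v.2)) := by simp [coact]
      have h2 : ∀ l, ev k lv e i0 l0 (X (v.1, l) * C (X (l, v.2))) =
          Polynomial.C ((if v.1 = l then 1 else 0) * XK k n m l v.2) + Polynomial.X *
      Polynomial.C ((if v.1 = i0 then SS lv (XK k n m) e l0 l else 0) *
        XK k n m l v.2) := by
        intro l
        rw [ev, map_mul]
        simp only [coe_eval₂Hom, eval₂_C, eval₂_X, RingHom.comp_apply, ← XK_apply]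
        simp only [map_mul]
        ring
      have h3 : ev k lv e i0 l0 (coact k n m (X v)) = Polynomial.C (XK k n m v.1 v.2) +
          Polynomial.X *
            Polynomial.C (if v.1 = i0 then WW lv (XK k n m) e l0 v.2 else 0) := by
        rw [h1, map_sum, Finset.sum_congr rfl fun l _ => h2 l, Finset.sum_add_distrib,
          ← map_sum, ← Finset.mul_sum, ← map_sum]
        congr 1
        · congr 1
          simp
        · congr 2
          split_ifs with hv
          · exact SS_mul_apply (hDb he) l0 v.2
          · simp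
      have h4 : ∀ l, chi k lv e (i0, e l0) ((if lv l ≤ lv v.1 then X (v.1, e l) else 0) *
          Wp k lv e l v.2) = Polynomial.C (TT lv (XK k n m) e v.1 l *
            WW lv (XK k n m) e l v.2) +
            (if v.1 = i0 ∧ l = l0 then Polynomial.X else 0) *
              Polynomial.C (WW lv (XK k n m) e l v.2) := by
        intro l
        rw [map_mul, chi_T he hl, chi_Wp he hl, add_mul, map_mul]
      rw [h3, theta_X, map_sum, Finset.sum_congr rfl fun l _ => h4 l,
        Finset.sum_add_distrib, ← map_sum, TT_mul_WW_apply (hDb he)]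
      congr 1
      by_cases hv1 : v.1 = i0
      · rw [if_pos hv1, Finset.sum_eq_single l0]
        · rw [if_pos ⟨hv1, rfl⟩]
        · intro l _ hl'
          rw [if_neg fun h => hl' h.2, zero_mul]
        · intro h
          exact absurd (Finset.mem_univ _) h
      · rw [if_neg hv1, map_zero, mul_zero]
        symm
        apply Finset.sum_eq_zero
        intro l _
        rw [if_neg fun h => hv1 h.1, zero_mul]
  exact DFunLike.congr_fun h f

omit hl in
lemma ev_C (i0 l0 : Fin n) (f : MvPolynomial (Fin n × Fin m) k) :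
    ev k lv e i0 l0 (C f) = Polynomial.C (psi k lv e (theta k lv e f)) := by
  rw [psi_theta he]
  simp [ev]

end fix2

section char

variable [hp : Fact p.Prime] [CharP k p]
  (h1 : ∀ i b l, lv l ≤ lv b → lv b ≤ lv i → h i b ≤ h i l)

include hp h1

lemma dvd_ev {i0 l0 : Fin n} (hl : lv l0 ≤ lv i0)
    {f : MvPolynomial (Fin n × Fin n) (MvPolynomial (Fin n × Fin m) k)}
    (hf : f ∈ frI k p m h) : Polynomial.X ^ (p ^ h i0 l0) ∣ ev k lv e i0 l0 f := by
  have hle : frI k p m h ≤
      Ideal.comap (ev k lv e i0 l0) (Ideal.span {Polynomial.X ^ (p ^ h i0 l0)}) := by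
    rw [frI, Ideal.span_le]
    rintro _ ⟨u, rfl⟩
    change ev k lv e i0 l0 _ ∈ Ideal.span {Polynomial.X ^ (p ^ h i0 l0)}
    rw [Ideal.mem_span_singleton]
    have hch : CharP (FF k n m) p := charP_of_injective_algebraMap (R := k)
      (FaithfulSMul.algebraMap_injective k (FF k n m)) p
    have e1 : ev k lv e i0 l0 (X u) = Polynomial.C (if u.1 = u.2 then 1 else 0) +
        Polynomial.X * Polynomial.C (if u.1 = i0 then SS lv (XK k n m) e l0 u.2 else 0) := by
      simp [ev]
    have e2 : ev k lv e i0 l0 (if u.1 = u.2 then 1 else 0) =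
        Polynomial.C (if u.1 = u.2 then 1 else 0) := by
      split_ifs <;> simp
    rw [map_sub, map_pow, e1, e2, add_pow_char_pow, ← map_pow]
    have e3 : (if u.1 = u.2 then (1 : FF k n m) else 0) ^ (p ^ h u.1 u.2) =
        if u.1 = u.2 then 1 else 0 := by
      have : p ^ h u.1 u.2 ≠ 0 := (pow_pos hp.out.pos _).ne'
      split_ifs
      · simp
      · exact zero_pow this
    rw [e3, add_sub_cancel_left, mul_pow]
    by_cases hu : u.1 = i0
    · by_cases hu2 : lv u.2 ≤ lv l0
      · rw [hu]
        exact (pow_dvd_pow _ (Nat.pow_le_pow_right hp.out.pos (h1 _ _ _ hu2 hl))).mul_right _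
      · rw [SS_zero _ _ _ (not_le.1 hu2), ite_self, map_zero,
          zero_pow (pow_pos hp.out.pos _).ne', mul_zero]
        exact dvd_zero _
    · rw [if_neg hu, map_zero, zero_pow (pow_pos hp.out.pos _).ne', mul_zero]
      exact dvd_zero _
  have h := hle hf
  rw [Ideal.mem_comap, Ideal.mem_span_singleton] at h
  exact h

lemma coeff_shift_theta (he : Function.Injective e) {i0 l0 : Fin n} (hl : lv l0 ≤ lv i0)
    {f : MvPolynomial (Fin n × Fin m) k} (hf : f ∈ Inv k p m h) (s : ℕ) (hs0 : 0 < s)
    (hs : s < p ^ h i0 l0) : (shift (i0, e l0) (theta k lv e f)).coeff s = 0 := by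
  apply psi_inj (lv := lv) he
  rw [map_zero]
  have h2 := dvd_ev (e := e) h1 hl (mem_Inv.1 hf)
  rw [map_sub, ev_coact he hl, ev_C he, chi_eq] at h2
  have h3 := (Polynomial.X_pow_dvd_iff.1 h2) s hs
  rw [Polynomial.coeff_sub, Polynomial.coeff_C_of_ne_zero hs0.ne', sub_zero] at h3
  rw [← h3]
  simp

end char

/-- Polynomials whose exponents are divisible by given numbers. -/
lemma mem_adjoin_of_dvd {σ : Type*} (q : σ → ℕ) (F : MvPolynomial σ k)
    (hF : ∀ d, coeff d F ≠ 0 → ∀ v, q v ∣ d v) :
    F ∈ Algebra.adjoin k (Set.range fun v => (X v ^ q v : MvPolynomial σ k)) := by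
  rw [← F.support_sum_monomial_coeff]
  refine Subalgebra.sum_mem _ fun d hd => ?_
  rw [monomial_eq]
  refine Subalgebra.mul_mem _ (Subalgebra.algebraMap_mem _ _) ?_
  refine Subalgebra.prod_mem _ fun v _ => ?_
  obtain ⟨a, ha⟩ := hF d (mem_support_iff.1 hd) v
  rw [ha]
  have h1 : (X v ^ q v : MvPolynomial σ k) ∈
      Algebra.adjoin k (Set.range fun v => (X v ^ q v : MvPolynomial σ k)) :=
    Algebra.subset_adjoin ⟨v, rfl⟩
  have h2 := Subalgebra.pow_mem _ h1 a
  rwa [← pow_mul] at h2

/-- The exponents of the coordinates. -/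
noncomputable def ex (p : ℕ) {n m : ℕ} (h : Fin n → Fin n → ℕ) (lv : Fin n → ℕ)
    (e : Fin n → Fin m) (v : Fin n × Fin m) : ℕ := open Classical in
  if hv : Piv lv e v then p ^ h v.1 hv.choose else 1

lemma ex_piv (he : Function.Injective e) {i l : Fin n} (hl : lv l ≤ lv i) :
    ex p h lv e (i, e l) = p ^ h i l := by
  have h1 : Piv lv e (i, e l) := ⟨l, rfl, hl⟩
  rw [ex, dif_pos h1]
  congr 2
  exact he h1.choose_spec.1

lemma ex_not {v : Fin n × Fin m} (hv : ¬ Piv lv e v) : ex p h lv e v = 1 := dif_neg hv

/-- The coordinates of the chart of the quotient. -/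
noncomputable def cc (k : Type u) [Field k] (p : ℕ) {n m : ℕ} (h : Fin n → Fin n → ℕ)
    (lv : Fin n → ℕ) (e : Fin n → Fin m) (v : Fin n × Fin m) : FF k n m :=
  ww k lv e v ^ ex p h lv e v

lemma ex_pos [hp : Fact p.Prime] (v : Fin n × Fin m) : 0 < ex p h lv e v := by
  rw [ex]
  split_ifs
  · exact pow_pos hp.out.pos _
  · exact Nat.one_pos

lemma algebraicIndependent_cc [hp : Fact p.Prime] (he : Function.Injective e) :
    AlgebraicIndependent k (cc k p h lv e) := by
  have h1 := (algebraicIndependent_ww (k := k) (lv := lv) he).polynomial_aeval_of_transcendental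
    (f := fun v : Fin n × Fin m => (Polynomial.X ^ (ex p h lv e v) : Polynomial k))
    (fun v => (Polynomial.transcendental_X k).pow (ex_pos v))
  have h2 : (fun v : Fin n × Fin m => Polynomial.aeval (ww k lv e v)
      (Polynomial.X ^ (ex p h lv e v) : Polynomial k)) = cc k p h lv e := by
    funext v
    rw [map_pow, Polynomial.aeval_X, cc]
  rw [h2] at h1
  exact h1

theorem algebraMap_mem [hp : Fact p.Prime] [CharP k p]
    (h1 : ∀ i b l, lv l ≤ lv b → lv b ≤ lv i → h i b ≤ h i l)
    (he : Function.Injective e)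
    {f : MvPolynomial (Fin n × Fin m) k} (hf : f ∈ Inv k p m h) :
    algebraMap _ (FF k n m) f ∈ Algebra.adjoin k (Set.range (cc k p h lv e)) := by
  rw [← psi_theta (lv := lv) he]
  have h2 : theta k lv e f ∈ Algebra.adjoin k (Set.range fun v : Fin n × Fin m =>
      (X v ^ ex p h lv e v : MvPolynomial (Fin n × Fin m) k)) := by
    apply mem_adjoin_of_dvd
    rintro d hd v
    by_cases hv : Piv lv e v
    · obtain ⟨l, hl, hle⟩ := hv
      obtain ⟨i, j⟩ := v
      have hl : e l = j := hl
      subst hl
      rw [ex_piv he hle]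
      classical
      exact dvd_of_shift hp.out _ _
        (fun s hs0 hs => coeff_shift_theta h1 he hle hf s hs0 hs) d hd
    · rw [ex_not hv]
      exact one_dvd _
  have h3 : psi k lv e (theta k lv e f) ∈ (Algebra.adjoin k (Set.range fun v : Fin n × Fin m =>
      (X v ^ ex p h lv e v : MvPolynomial (Fin n × Fin m) k))).map (psi k lv e) :=
    ⟨_, h2, rfl⟩
  rw [AlgHom.map_adjoin] at h3
  refine Algebra.adjoin_mono ?_ h3
  rintro _ ⟨_, ⟨v, rfl⟩, rfl⟩
  refine ⟨v, ?_⟩
  simp only [map_pow, psi_X]
  rfl

end Pool.Agent.J6H83.Pk
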