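import Pool.Agent.J6H83.Pk.Gr
import Pool.Agent.Y212.Fk.Top

/-!
The chart coordinates of the generic matrix.
-/

set_option autoImplicit false

open MvPolynomial Matrix Cardinal

universe u

namespace Pool.Agent.J6H83.Pk

open Pool.Agent.Y212.Fk (FF XK XK_apply gen)

variable {k : Type u} [Field k] {n m : ℕ}

/-- A minor of the generic matrix, as a polynomial. -/
noncomputable def mnr (k : Type u) [Field k] {n m : ℕ} (P : Fin n → Prop) [DecidablePred P]
    (e : Fin n → Fin m) : MvPolynomial (Fin n × Fin m) k :=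
  (tr P ((gen k n m).submatrix id e)).det

lemma DP_XK (P : Fin n → Prop) [DecidablePred P] (e : Fin n → Fin m) :
    DP P (XK k n m) e = algebraMap _ (FF k n m) (mnr k P e) := by
  rw [mnr, RingHom.map_det, DP]
  congr 1
  rw [RingHom.mapMatrix_apply, map_tr]
  rfl

lemma DP_ne (P : Fin n → Prop) [DecidablePred P] (e : Fin n → Fin m)
    (he : ∀ i l, P i → P l → e i = e l → i = l) : DP P (XK k n m) e ≠ 0 := by
  rw [DP_XK, Ne, FaithfulSMul.algebraMap_eq_zero_iff]
  intro h
  let φ : MvPolynomial (Fin n × Fin m) k →+* k :=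
    eval fun u => if e u.1 = u.2 then 1 else 0
  have h1 : φ (mnr k P e) = 1 := by
    rw [mnr, RingHom.map_det, RingHom.mapMatrix_apply, map_tr]
    apply det_tr_eq_one (fun _ => 0)
    intro i l hi hl _
    rw [Matrix.map_apply, Matrix.submatrix_apply]
    simp only [gen, Matrix.of_apply, φ, eval_X, id]
    by_cases hil : i = l
    · rw [if_pos hil, if_pos (congrArg e hil)]
    · rw [if_neg hil, if_neg fun h => hil (he i l hi hl h)]
  rw [h, map_zero] at h1
  exact zero_ne_one h1

section fix

variable (lv : Fin n → ℕ) (e : Fin n → Fin m)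

/-- The pivots. -/
def Piv (v : Fin n × Fin m) : Prop := ∃ l, e l = v.2 ∧ lv l ≤ lv v.1

/-- The coordinates of the chart of the affine space. -/
noncomputable def ww (k : Type u) [Field k] {n m : ℕ} (lv : Fin n → ℕ) (e : Fin n → Fin m)
    (v : Fin n × Fin m) : FF k n m := open Classical in
  if h : Piv lv e v then TT lv (XK k n m) e v.1 h.choose else WW lv (XK k n m) e v.1 v.2

variable {lv e}

lemma ww_piv (he : Function.Injective e) {i l : Fin n} (h : lv l ≤ lv i) :
    ww k lv e (i, e l) = TT lv (XK k n m) e i l := by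
  have h1 : Piv lv e (i, e l) := ⟨l, rfl, h⟩
  rw [ww, dif_pos h1]
  congr 1
  exact he h1.choose_spec.1

lemma ww_not {v : Fin n × Fin m} (h : ¬ Piv lv e v) :
    ww k lv e v = WW lv (XK k n m) e v.1 v.2 := by
  rw [ww, dif_neg h]

lemma hDb (he : Function.Injective e) (l : Fin n) : Db lv (XK k n m) e (lv l) ≠ 0 :=
  DP_ne _ e fun _ _ _ _ h => he h

lemma WW_mem_adjoin (he : Function.Injective e) (c : Fin n × Fin m → FF k n m)
    (hc : ∀ v : Fin n × Fin m, ¬ Piv lv e v → c v = WW lv (XK k n m) e v.1 v.2)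
    (i : Fin n) (j : Fin m) :
    WW lv (XK k n m) e i j ∈ Algebra.adjoin k (Set.range c) := by
  by_cases hj : Piv lv e (i, j)
  · obtain ⟨l, hl, hle⟩ := hj
    have hl : e l = j := hl
    rw [← hl, WW_norm (hDb he) hle]
    split_ifs
    · exact Subalgebra.one_mem _
    · exact Subalgebra.zero_mem _
  · rw [← hc (i, j) hj]
    exact Algebra.subset_adjoin ⟨_, rfl⟩

lemma TT_mem_adjoin_ww (he : Function.Injective e) (i l : Fin n) :
    TT lv (XK k n m) e i l ∈ Algebra.adjoin k (Set.range (ww k lv e)) := by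
  by_cases h : lv l ≤ lv i
  · rw [← ww_piv he h]
    exact Algebra.subset_adjoin ⟨_, rfl⟩
  · rw [TT_zero (hDb he) (not_le.1 h)]
    exact Subalgebra.zero_mem _

lemma algebraMap_mem_adjoin_ww (he : Function.Injective e)
    (f : MvPolynomial (Fin n × Fin m) k) :
    algebraMap _ (FF k n m) f ∈ Algebra.adjoin k (Set.range (ww k lv e)) := by
  have hW := WW_mem_adjoin he (ww k lv e) (fun v hv => ww_not hv)
  induction f using MvPolynomial.induction_on with
  | C a =>
    have h : algebraMap (MvPolynomial (Fin n × Fin m) k) (FF k n m) (C a) =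
        algebraMap k (FF k n m) a :=
      (IsScalarTower.algebraMap_apply k (MvPolynomial (Fin n × Fin m) k) (FF k n m) a).symm
    rw [h]
    exact Subalgebra.algebraMap_mem _ _
  | add f g hf hg =>
    rw [map_add]
    exact Subalgebra.add_mem _ hf hg
  | mul_X f v hf =>
    rw [map_mul]
    refine Subalgebra.mul_mem _ hf ?_
    have h := TT_mul_WW_apply (hDb (k := k) (lv := lv) he) v.1 v.2
    rw [XK_apply] at h
    rw [← h]
    exact Subalgebra.sum_mem _ fun l _ => Subalgebra.mul_mem _ (TT_mem_adjoin_ww he _ _)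
      (hW _ _)

lemma algebraicIndependent_of_adjoin (c : Fin n × Fin m → FF k n m)
    (hc : ∀ f : MvPolynomial (Fin n × Fin m) k,
      algebraMap _ (FF k n m) f ∈ Algebra.adjoin k (Set.range c)) :
    AlgebraicIndependent k c := by
  have h1 : Algebra.IsAlgebraic (Algebra.adjoin k (Set.range c)) (FF k n m) := by
    refine ⟨fun x => ?_⟩
    obtain ⟨a, b, hb, rfl⟩ := IsFractionRing.div_surjective
      (A := MvPolynomial (Fin n × Fin m) k) x
    have ha : IsAlgebraic (Algebra.adjoin k (Set.range c))
        (algebraMap (MvPolynomial (Fin n × Fin m) k) (FF k n m) a) :=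
      isAlgebraic_algebraMap (A := FF k n m) (⟨_, hc a⟩ : Algebra.adjoin k (Set.range c))
    have hb : IsAlgebraic (Algebra.adjoin k (Set.range c))
        (algebraMap (MvPolynomial (Fin n × Fin m) k) (FF k n m) b) :=
      isAlgebraic_algebraMap (A := FF k n m) (⟨_, hc b⟩ : Algebra.adjoin k (Set.range c))
    rw [div_eq_mul_inv]
    exact ha.mul hb.inv
  have h0 : Algebra.IsAlgebraic (MvPolynomial (Fin n × Fin m) k) (FF k n m) :=
    IsLocalization.isAlgebraic _ (nonZeroDivisors (MvPolynomial (Fin n × Fin m) k))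
  have h2 : IsTranscendenceBasis k
      (fun v : Fin n × Fin m => algebraMap (MvPolynomial (Fin n × Fin m) k) (FF k n m) (X v)) :=
    (IsTranscendenceBasis.mvPolynomial (Fin n × Fin m) k).algebraMap_comp (A := FF k n m)
  have h3 := h2.lift_cardinalMk_eq_trdeg
  exact (Algebra.IsAlgebraic.isTranscendenceBasis_of_lift_le_trdeg_of_finite k c h3.le).1

lemma algebraicIndependent_ww (he : Function.Injective e) :
    AlgebraicIndependent k (ww k lv e) :=
  algebraicIndependent_of_adjoin _ (algebraMap_mem_adjoin_ww he)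

/-- The point with the coordinates `ww`. -/
noncomputable def psi (k : Type u) [Field k] {n m : ℕ} (lv : Fin n → ℕ) (e : Fin n → Fin m) :
    MvPolynomial (Fin n × Fin m) k →ₐ[k] FF k n m := aeval (ww k lv e)

/-- The polynomials which are mapped to the `W i j`. -/
noncomputable def Wp (k : Type u) [Field k] {n m : ℕ} (lv : Fin n → ℕ) (e : Fin n → Fin m)
    (l : Fin n) (j : Fin m) : MvPolynomial (Fin n × Fin m) k := open Classical in
  if Piv lv e (l, j) then (if e l = j then 1 else 0) else X (l, j)

/-- The polynomial map `(T, W) ↦ T W`. -/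
noncomputable def theta (k : Type u) [Field k] {n m : ℕ} (lv : Fin n → ℕ) (e : Fin n → Fin m) :
    MvPolynomial (Fin n × Fin m) k →ₐ[k] MvPolynomial (Fin n × Fin m) k :=
  aeval fun v => ∑ l, (if lv l ≤ lv v.1 then X (v.1, e l) else 0) * Wp k lv e l v.2

lemma psi_X (v : Fin n × Fin m) : psi k lv e (X v) = ww k lv e v := by simp [psi]

lemma psi_inj (he : Function.Injective e) : Function.Injective (psi k lv e) :=
  algebraicIndependent_ww he

lemma psi_Wp (he : Function.Injective e) (l : Fin n) (j : Fin m) :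
    psi k lv e (Wp k lv e l j) = WW lv (XK k n m) e l j := by
  rw [Wp]
  by_cases h : Piv lv e (l, j)
  · rw [if_pos h]
    obtain ⟨l', hl', hle⟩ := h
    have hl' : e l' = j := hl'
    rw [← hl', WW_norm (hDb he) hle]
    by_cases h2 : l = l'
    · rw [if_pos h2, if_pos (congrArg e h2), map_one]
    · rw [if_neg h2, if_neg fun h => h2 (he h), map_zero]
  · rw [if_neg h, psi_X, ww_not h]

lemma psi_T (he : Function.Injective e) (i l : Fin n) :
    psi k lv e (if lv l ≤ lv i then X (i, e l) else 0) = TT lv (XK k n m) e i l := by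
  split_ifs with h
  · rw [psi_X, ww_piv he h]
  · rw [map_zero, TT_zero (hDb he) (not_le.1 h)]

lemma theta_X (v : Fin n × Fin m) : theta k lv e (X v) =
    ∑ l, (if lv l ≤ lv v.1 then X (v.1, e l) else 0) * Wp k lv e l v.2 := by
  rw [theta, aeval_X]

lemma psi_theta (he : Function.Injective e) (f : MvPolynomial (Fin n × Fin m) k) :
    psi k lv e (theta k lv e f) = algebraMap _ (FF k n m) f := by
  have h : (psi k lv e).comp (theta k lv e) =
      (IsScalarTower.toAlgHom k (MvPolynomial (Fin n × Fin m) k) (FF k n m)) := by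
    apply MvPolynomial.algHom_ext
    intro v
    rw [AlgHom.comp_apply, theta_X, map_sum]
    have h1 : ∀ l, psi k lv e ((if lv l ≤ lv v.1 then X (v.1, e l) else 0) *
        Wp k lv e l v.2) = TT lv (XK k n m) e v.1 l * WW lv (XK k n m) e l v.2 := by
      intro l
      rw [map_mul, psi_T he, psi_Wp he]
    rw [Finset.sum_congr rfl fun l _ => h1 l, TT_mul_WW_apply (hDb he)]
    rfl
  exact DFunLike.congr_fun h f

end fix

end Pool.Agent.J6H83.Pk
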