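import Pool.Agent.J6H83.Pk.Tr

/-!
Greedy choice of pivots with respect to a valuation ring.
-/

set_option autoImplicit false

open Matrix

namespace Pool.Agent.J6H83.Pk

variable {n m : ℕ} {K : Type*} [Field K] {x : Matrix (Fin n) (Fin m) K}

lemma exists_lv' (lv : Fin n → ℕ) : ∃ lv' : Fin n → ℕ, Function.Injective lv' ∧
    ∀ i j, lv' i ≤ lv' j → lv i ≤ lv j := by
  refine ⟨fun i => lv i * n + i, ?_, ?_⟩
  · intro i j h
    have h : lv i * n + (i : ℕ) = lv j * n + j := h
    have h1 := congrArg (· % n) h
    simp only [Nat.mul_add_mod_self_right, Nat.mod_eq_of_lt i.2, Nat.mod_eq_of_lt j.2] at h1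
    exact Fin.ext h1
  · intro i j h
    have h : lv i * n + (i : ℕ) ≤ lv j * n + j := h
    by_contra hlt
    have h1 : (lv j + 1) * n ≤ lv i * n := Nat.mul_le_mul_right n (by omega)
    have h2 := j.2
    have h3 : (lv j + 1) * n = lv j * n + n := by ring
    omega

variable (hx : ∀ (P : Fin n → Prop) [DecidablePred P] (e : Fin n → Fin m),
  (∀ i l, P i → P l → e i = e l → i = l) → DP P x e ≠ 0) (hnm : n ≤ m)
  (V : ValuationSubring K)

include hx hnm

lemma exists_greedy_aux (lv : Fin n → ℕ) (hlv : Function.Injective lv) (N : ℕ) :
    ∃ e : Fin n → Fin m, (∀ i l, lv i < N → lv l < N → e i = e l → i = l) ∧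
      ∀ s, lv s < N → ∀ j, V.valuation (Db lv x (Function.update e s j) (lv s)) ≤
        V.valuation (Db lv x e (lv s)) := by
  classical
  induction N with
  | zero =>
    refine ⟨Fin.castLE hnm, ?_, ?_⟩
    · intro i l hi
      exact absurd hi (Nat.not_lt_zero _)
    · intro s hs
      exact absurd hs (Nat.not_lt_zero _)
  | succ N ih =>
    obtain ⟨e, he1, he2⟩ := ih
    by_cases hN : ∃ s, lv s = N
    · obtain ⟨s, hs⟩ := hN
      have hm : (Finset.univ : Finset (Fin m)).Nonempty := by
        have h1 : 0 < n := (Nat.zero_le _).trans_lt s.2
        exact ⟨⟨0, h1.trans_le hnm⟩, Finset.mem_univ _⟩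
      obtain ⟨j, -, hj⟩ := Finset.exists_max_image (Finset.univ : Finset (Fin m))
        (fun j => V.valuation (Db lv x (Function.update e s j) (lv s))) hm
      -- a column not used so far
      obtain ⟨j0, hj0⟩ : ∃ j0, ∀ i, lv i < N → e i ≠ j0 := by
        by_contra hcon
        push Not at hcon
        choose g hg1 hg2 using hcon
        have h1 : Function.Injective g := by
          intro a b hab
          rw [← hg2 a, ← hg2 b, hab]
        have h2 := Fintype.card_le_of_injective g h1
        rw [Fintype.card_fin, Fintype.card_fin] at h2
        have h3 : ¬ Function.Surjective g := by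
          intro hsurj
          obtain ⟨a, ha⟩ := hsurj s
          have := hg1 a
          rw [ha, hs] at this
          exact lt_irrefl _ this
        have h4 : n = m := le_antisymm hnm h2
        subst h4
        exact h3 (Finite.injective_iff_surjective.1 h1)
      have hlt : ∀ i, lv i < N → i ≠ s := by
        rintro i hi rfl
        exact absurd hs (ne_of_lt hi)
      have hle : ∀ i, lv i < N + 1 → i ≠ s → lv i < N := by
        intro i hi hne
        have h1 : lv i ≠ N := fun h => hne (hlv (h.trans hs.symm))
        omega
      have h0 : Db lv x (Function.update e s j0) (lv s) ≠ 0 := by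
        apply hx
        intro i l hi hl hil
        have hi' : lv i < N + 1 := by rw [← hs]; exact Nat.lt_succ_of_le hi
        have hl' : lv l < N + 1 := by rw [← hs]; exact Nat.lt_succ_of_le hl
        by_cases hi1 : i = s
        · by_cases hl1 : l = s
          · rw [hi1, hl1]
          · rw [hi1, Function.update_self, Function.update_of_ne hl1] at hil
            exact absurd hil.symm (hj0 l (hle l hl' hl1))
        · by_cases hl1 : l = s
          · rw [hl1, Function.update_self, Function.update_of_ne hi1] at hil
            exact absurd hil (hj0 i (hle i hi' hi1))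
          · rw [Function.update_of_ne hi1, Function.update_of_ne hl1] at hil
            exact he1 i l (hle i hi' hi1) (hle l hl' hl1) hil
      have h1 : Db lv x (Function.update e s j) (lv s) ≠ 0 := by
        intro h
        have h2 := hj j0 (Finset.mem_univ _)
        simp only [h, map_zero, le_zero_iff, Valuation.zero_iff] at h2
        exact h0 h2
      refine ⟨Function.update e s j, ?_, ?_⟩
      · intro i l hi hl hil
        exact injOn_of_DP h1 i l (show lv i ≤ lv s by omega) (show lv l ≤ lv s by omega) hil
      · intro t ht j'
        by_cases hts : t = s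
        · subst hts
          rw [Function.update_idem]
          exact hj j' (Finset.mem_univ _)
        · have htN := hle t ht hts
          have e1 : Db lv x (Function.update (Function.update e s j) t j') (lv t) =
              Db lv x (Function.update e t j') (lv t) := by
            apply DP_congr
            intro i hi
            have hi' : lv i < N := lt_of_le_of_lt hi htN
            by_cases hit : i = t
            · rw [hit, Function.update_self, Function.update_self]
            · rw [Function.update_of_ne hit, Function.update_of_ne hit,
                Function.update_of_ne (hlt i hi')]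
          have e2 : Db lv x (Function.update e s j) (lv t) = Db lv x e (lv t) := by
            apply DP_congr
            intro i hi
            have hi' : lv i < N := lt_of_le_of_lt hi htN
            rw [Function.update_of_ne (hlt i hi')]
          rw [e1, e2]
          exact he2 t htN j'
    · have hne : ∀ i, lv i < N + 1 → lv i < N := by
        intro i hi
        have h1 : lv i ≠ N := fun h => hN ⟨i, h⟩
        omega
      exact ⟨e, fun i l hi hl => he1 i l (hne i hi) (hne l hl),
        fun s hs => he2 s (hne s hs)⟩

/-- There is a choice of the columns such that all minors of the rows of level at most `b` are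
maximal, for all `b` simultaneously. -/
lemma exists_greedy (lv : Fin n → ℕ) : ∃ e : Fin n → Fin m, Function.Injective e ∧
    ∀ (b : ℕ) (f : Fin n → Fin m), Db lv x f b / Db lv x e b ∈ V := by
  obtain ⟨lv', hinj, hle⟩ := exists_lv' lv
  obtain ⟨N, hN⟩ : ∃ N, ∀ i, lv' i < N := by
    refine ⟨Finset.univ.sup lv' + 1, fun i => ?_⟩
    exact Nat.lt_succ_of_le (Finset.le_sup (Finset.mem_univ i))
  obtain ⟨e, he1, he2⟩ := exists_greedy_aux hx hnm V lv' hinj N
  have he : Function.Injective e := fun i l h => he1 i l (hN i) (hN l) h
  have hD : ∀ l, Db lv' x e (lv' l) ≠ 0 := fun l => hx _ e fun i l _ _ h => he h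
  refine ⟨e, he, fun b f => ?_⟩
  have hDb : Db lv x e b ≠ 0 := hx _ e fun i l _ _ h => he h
  have hW : ∀ l j, WW lv' x e l j ∈ V := by
    intro l j
    rw [WW_eq_div hD, ← ValuationSubring.valuation_le_one_iff, map_div₀]
    exact div_le_one_of_le₀ (he2 l (hN l) j) zero_le
  have h1 : Db lv x f b = Db lv x e b *
      (tr (fun i => lv i ≤ b) ((WW lv' x e).submatrix id f)).det :=
    DP_eq hD (fun i c h h' => (hle c i h).trans h') f
  rw [h1, mul_div_cancel_left₀ _ hDb, Matrix.det_apply]
  refine V.toSubring.sum_mem fun σ _ => ?_
  rw [Units.smul_def]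
  refine V.toSubring.zsmul_mem (V.toSubring.prod_mem fun i _ => ?_) _
  rw [tr_apply]
  split_ifs
  · exact hW _ _
  · exact V.one_mem
  · exact V.zero_mem

end Pool.Agent.J6H83.Pk
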