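import Mathlib

/-!
Block triangular factorizations of matrices.
-/

set_option autoImplicit false

open Matrix

namespace Pool.Agent.J6H83.Pk

variable {n m : ℕ}

section ring

variable {R : Type*} [CommRing R]

/-- The matrix which agrees with `M` on the rows and columns in `P` and with `1` elsewhere. -/
def tr (P : Fin n → Prop) [DecidablePred P] (M : Matrix (Fin n) (Fin n) R) :
    Matrix (Fin n) (Fin n) R :=
  Matrix.of fun i l => if P i ∧ P l then M i l else if i = l then 1 else 0

variable {P : Fin n → Prop} [DecidablePred P]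

lemma tr_apply (M : Matrix (Fin n) (Fin n) R) (i l : Fin n) :
    tr P M i l = if P i ∧ P l then M i l else if i = l then 1 else 0 := rfl

lemma tr_of (M : Matrix (Fin n) (Fin n) R) {i l : Fin n} (hi : P i) (hl : P l) :
    tr P M i l = M i l := if_pos ⟨hi, hl⟩

lemma tr_of_not_left (M : Matrix (Fin n) (Fin n) R) {i : Fin n} (hi : ¬ P i) (l : Fin n) :
    tr P M i l = if i = l then 1 else 0 := if_neg fun h => hi h.1

lemma tr_of_not_right (M : Matrix (Fin n) (Fin n) R) (i : Fin n) {l : Fin n} (hl : ¬ P l) :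
    tr P M i l = if i = l then 1 else 0 := if_neg fun h => hl h.2

lemma tr_mul (T N : Matrix (Fin n) (Fin n) R) (h : ∀ i c, P i → ¬ P c → T i c = 0) :
    tr P (T * N) = tr P T * tr P N := by
  ext1 i l
  rw [Matrix.mul_apply]
  by_cases hi : P i
  · by_cases hl : P l
    · rw [tr_of _ hi hl, Matrix.mul_apply]
      apply Finset.sum_congr rfl
      intro c _
      by_cases hc : P c
      · rw [tr_of _ hi hc, tr_of _ hc hl]
      · have hne : i ≠ c := fun h => hc (h ▸ hi)
        rw [h i c hi hc, tr_of_not_right _ _ hc, if_neg hne, zero_mul, zero_mul]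
    · rw [tr_of_not_right _ _ hl]
      have hne : i ≠ l := fun h => hl (h ▸ hi)
      rw [if_neg hne]
      symm
      apply Finset.sum_eq_zero
      intro c _
      by_cases hc : P c
      · have hne' : c ≠ l := fun h => hl (h ▸ hc)
        rw [tr_of_not_right N _ hl, if_neg hne', mul_zero]
      · have hne' : i ≠ c := fun h => hc (h ▸ hi)
        rw [tr_of_not_right T _ hc, if_neg hne', zero_mul]
  · rw [tr_of_not_left _ hi]
    have h1 : ∀ c, tr P T i c * tr P N c l = if i = c then tr P N c l else 0 := by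
      intro c
      rw [tr_of_not_left _ hi]
      split_ifs <;> simp
    rw [Finset.sum_congr rfl fun c _ => h1 c, Finset.sum_ite_eq, if_pos (Finset.mem_univ _),
      tr_of_not_left _ hi]

lemma det_eq_one_of_levels (lv : Fin n → ℕ) (M : Matrix (Fin n) (Fin n) R)
    (h : ∀ i l, lv l ≤ lv i → M i l = if i = l then 1 else 0) : M.det = 1 := by
  have h1 : M.BlockTriangular lv := by
    intro i l hil
    rw [h i l hil.le, if_neg]
    rintro rfl
    exact lt_irrefl _ hil
  rw [h1.det]
  apply Finset.prod_eq_one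
  intro a _
  have h2 : M.toSquareBlock lv a = 1 := by
    ext1 i l
    rw [Matrix.toSquareBlock_def]
    change M i l = _
    rw [h i l (by rw [i.2, l.2]), Matrix.one_apply]
    simp only [Subtype.ext_iff]
  rw [h2, Matrix.det_one]

lemma det_tr_eq_one (lv : Fin n → ℕ) (M : Matrix (Fin n) (Fin n) R)
    (h : ∀ i l, P i → P l → lv l ≤ lv i → M i l = if i = l then 1 else 0) :
    (tr P M).det = 1 := by
  apply det_eq_one_of_levels lv
  intro i l hil
  rw [tr_apply]
  split_ifs with h1 h2 h2
  · rw [h i l h1.1 h1.2 hil, if_pos h2]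
  · rw [h i l h1.1 h1.2 hil, if_neg h2]
  · rfl
  · rfl

lemma map_tr {R' : Type*} [CommRing R'] (φ : R →+* R') (M : Matrix (Fin n) (Fin n) R) :
    (tr P M).map φ = tr P (M.map φ) := by
  ext1 i l
  rw [Matrix.map_apply, tr_apply, tr_apply, Matrix.map_apply]
  split_ifs <;> simp

end ring

section field

variable {K : Type*} [Field K] (lv : Fin n → ℕ) (x : Matrix (Fin n) (Fin m) K)
  (e : Fin n → Fin m)

/-- The minor of the rows in `P`. -/
noncomputable def DP (P : Fin n → Prop) [DecidablePred P] (x : Matrix (Fin n) (Fin m) K)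
    (e : Fin n → Fin m) : K := (tr P (x.submatrix id e)).det

/-- The minor of the rows of level at most `b`. -/
noncomputable def Db (b : ℕ) : K := DP (fun i => lv i ≤ b) x e

/-- The level triangular matrix with `W = S x`. -/
noncomputable def SS : Matrix (Fin n) (Fin n) K :=
  Matrix.of fun l i =>
    if lv i ≤ lv l then (tr (fun i => lv i ≤ lv l) (x.submatrix id e))⁻¹ l i else 0

/-- The reduced matrix. -/
noncomputable def WW : Matrix (Fin n) (Fin m) K := SS lv x e * x

/-- The level triangular matrix with `x = T W`. -/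
noncomputable def TT : Matrix (Fin n) (Fin n) K := (SS lv x e)⁻¹

lemma SS_zero {l i : Fin n} (h : lv l < lv i) : SS lv x e l i = 0 := if_neg (not_le.2 h)

variable {lv x e}

lemma DP_congr {P : Fin n → Prop} [DecidablePred P] {e e' : Fin n → Fin m}
    (h : ∀ i, P i → e i = e' i) : DP P x e = DP P x e' := by
  rw [DP, DP]
  congr 1
  ext1 i l
  rw [tr_apply, tr_apply]
  split_ifs with h1
  · rw [Matrix.submatrix_apply, Matrix.submatrix_apply, h l h1.2]
  · rfl
  · rfl

lemma injOn_of_DP {P : Fin n → Prop} [DecidablePred P] (h : DP P x e ≠ 0) :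
    ∀ i l, P i → P l → e i = e l → i = l := by
  intro i l hi hl hil
  by_contra hne
  apply h
  rw [DP]
  apply Matrix.det_zero_of_column_eq hne
  intro c
  by_cases hc : P c
  · rw [tr_of _ hc hi, tr_of _ hc hl]
    simp [hil]
  · have h1 : c ≠ i := fun h => hc (h ▸ hi)
    have h2 : c ≠ l := fun h => hc (h ▸ hl)
    rw [tr_of_not_left _ hc, tr_of_not_left _ hc, if_neg h1, if_neg h2]

section fix

variable (hD : ∀ l, Db lv x e (lv l) ≠ 0)

include hD

lemma isUnit_tr (l : Fin n) :
    IsUnit (tr (fun i => lv i ≤ lv l) (x.submatrix id e)).det := IsUnit.mk0 _ (hD l)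

lemma WW_norm {l l' : Fin n} (h : lv l' ≤ lv l) :
    WW lv x e l (e l') = if l = l' then 1 else 0 := by
  have h1 := Matrix.nonsing_inv_mul _ (isUnit_tr hD l)
  have h2 := congrFun (congrFun h1 l) l'
  rw [Matrix.mul_apply, Matrix.one_apply] at h2
  rw [WW, Matrix.mul_apply, ← h2]
  apply Finset.sum_congr rfl
  intro i _
  by_cases hi : lv i ≤ lv l
  · rw [tr_of (P := fun i => lv i ≤ lv l) (x.submatrix id e) hi h]
    simp [SS, hi]
  · have hne : i ≠ l' := fun h' => hi (h' ▸ h)
    rw [SS_zero lv x e (not_le.1 hi), tr_of_not_left (P := fun i => lv i ≤ lv l) _ hi,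
      if_neg hne, zero_mul, mul_zero]

lemma det_WW_sub : ((WW lv x e).submatrix id e).det = 1 := by
  apply det_eq_one_of_levels lv
  intro i l h
  exact WW_norm hD h

lemma SS_mul : SS lv x e * x.submatrix id e = (WW lv x e).submatrix id e := by
  ext1 i l
  simp [WW, Matrix.mul_apply]

lemma isUnit_SS : IsUnit (SS lv x e).det := by
  have h := congrArg Matrix.det (SS_mul hD)
  rw [Matrix.det_mul, det_WW_sub hD] at h
  exact IsUnit.of_mul_eq_one _ h

lemma TT_mul_SS : TT lv x e * SS lv x e = 1 := Matrix.nonsing_inv_mul _ (isUnit_SS hD)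

lemma SS_mul_TT : SS lv x e * TT lv x e = 1 := Matrix.mul_nonsing_inv _ (isUnit_SS hD)

lemma TT_mul_WW : TT lv x e * WW lv x e = x := by
  rw [WW, ← Matrix.mul_assoc, TT_mul_SS hD, Matrix.one_mul]

lemma TT_zero {i l : Fin n} (h : lv i < lv l) : TT lv x e i l = 0 := by
  have h1 : (SS lv x e).BlockTriangular (OrderDual.toDual ∘ lv) := by
    intro i l hil
    exact SS_zero lv x e hil
  have : Invertible (SS lv x e) := Matrix.invertibleOfIsUnitDet _ (isUnit_SS hD)
  have h2 := Matrix.blockTriangular_inv_of_blockTriangular h1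
  exact h2 h

lemma TT_mul_WW_apply (i : Fin n) (j : Fin m) :
    ∑ l, TT lv x e i l * WW lv x e l j = x i j := by
  have h := congrFun (congrFun (TT_mul_WW hD) i) j
  rwa [Matrix.mul_apply] at h

lemma SS_mul_apply (l : Fin n) (j : Fin m) :
    ∑ i, SS lv x e l i * x i j = WW lv x e l j := by
  rw [WW, Matrix.mul_apply]

/-- The minors in terms of `W`. -/
lemma DP_eq {P : Fin n → Prop} [DecidablePred P] (hP : ∀ i c, lv c ≤ lv i → P i → P c)
    (f : Fin n → Fin m) :
    DP P x f = DP P x e * (tr P ((WW lv x e).submatrix id f)).det := by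
  have h1 : ∀ f : Fin n → Fin m, DP P x f =
      (tr P (TT lv x e)).det * (tr P ((WW lv x e).submatrix id f)).det := by
    intro f
    rw [← Matrix.det_mul, ← tr_mul, DP]
    · congr 2
      ext1 i l
      rw [Matrix.mul_apply]
      exact (TT_mul_WW_apply hD i (f l)).symm
    · intro i c hi hc
      apply TT_zero hD
      by_contra h
      exact hc (hP i c (not_lt.1 h) hi)
  have h2 : (tr P ((WW lv x e).submatrix id e)).det = 1 := by
    apply det_tr_eq_one lv
    intro i l _ _ h
    exact WW_norm hD h
  rw [h1 f, h1 e, h2, mul_one]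

lemma Db_eq (b : ℕ) (f : Fin n → Fin m) :
    Db lv x f b = Db lv x e b *
      (tr (fun i => lv i ≤ b) ((WW lv x e).submatrix id f)).det :=
  DP_eq hD (fun _ _ h h' => h.trans h') f

lemma WW_eq_div (l : Fin n) (j : Fin m) : WW lv x e l j =
    Db lv x (Function.update e l j) (lv l) / Db lv x e (lv l) := by
  rw [eq_div_iff (hD l)]
  have h1 : WW lv x e l j = ((tr (fun i => lv i ≤ lv l) (x.submatrix id e))⁻¹ *ᵥ
      (fun i => if lv i ≤ lv l then x i j else 0)) l := by
    rw [WW, Matrix.mul_apply, Matrix.mulVec, dotProduct]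
    apply Finset.sum_congr rfl
    intro i _
    by_cases hi : lv i ≤ lv l
    · simp [SS, hi]
    · simp [SS, hi]
  have h2 : tr (fun i => lv i ≤ lv l) (x.submatrix id (Function.update e l j)) =
      (tr (fun i => lv i ≤ lv l) (x.submatrix id e)).updateCol l
        (fun i => if lv i ≤ lv l then x i j else 0) := by
    ext1 a b
    by_cases hb : b = l
    · subst hb
      rw [Matrix.updateCol_self]
      by_cases ha : lv a ≤ lv b
      · rw [tr_of (P := fun i => lv i ≤ lv b) _ ha le_rfl, if_pos ha]
        simp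
      · have hne : a ≠ b := fun h => ha (h ▸ le_rfl)
        rw [tr_of_not_left (P := fun i => lv i ≤ lv b) _ ha, if_neg ha, if_neg hne]
    · rw [Matrix.updateCol_ne hb, tr_apply, tr_apply]
      simp [Function.update_of_ne hb]
  rw [Db, Db, DP, DP, h1, h2, ← Matrix.cramer_apply, Matrix.inv_def, Matrix.smul_mulVec,
    ← Matrix.cramer_eq_adjugate_mulVec, Pi.smul_apply, smul_eq_mul]
  have h3 := Ring.inverse_mul_cancel _ (isUnit_tr hD l)
  calc _ = (Ring.inverse (tr (fun i => lv i ≤ lv l) (x.submatrix id e)).det *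
        (tr (fun i => lv i ≤ lv l) (x.submatrix id e)).det) *
        (tr (fun i => lv i ≤ lv l) (x.submatrix id e)).cramer
          (fun i => if lv i ≤ lv l then x i j else 0) l := by ring
    _ = _ := by rw [h3, one_mul]

/-- `T` is determined by `W`. -/
lemma TT_eq : TT lv x e = x.submatrix id e * ((WW lv x e).submatrix id e)⁻¹ := by
  have h1 : IsUnit ((WW lv x e).submatrix id e).det := by
    rw [det_WW_sub hD]
    exact isUnit_one
  have h2 : x.submatrix id e = TT lv x e * (WW lv x e).submatrix id e := by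
    ext1 i l
    rw [Matrix.mul_apply]
    exact (TT_mul_WW_apply hD i (e l)).symm
  rw [h2, Matrix.mul_assoc, Matrix.mul_nonsing_inv _ h1, Matrix.mul_one]

end fix

end field

end Pool.Agent.J6H83.Pk
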